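import Pool.Agent.Lib.MP_2b3e36_an.CZ.Main
import Pool.Agent.Lib.MP_2b3e36_an.CZ.SMain
import Pool.Agent.Lib.MP_2b3e36_an.CZ.PkA
import Pool.Agent.Lib.MP_2b3e36_an.CZ.PkB
import Pool.Agent.Lib.MP_2b3e36_an.CZ.PkC

/-!
# MP_2b3e36_an: zeros and ones close together

`A`, `B` are monic real polynomials whose roots are the prescribed zeros and ones (with
multiplicity), in the disc of radius `ρ < 1`. `Solvable A B`: there is a real rational function without
poles in the closed unit disc with exactly these zeros and ones there. `NP A B c`: a Nevanlinna-Pick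
problem. `Hyp n ρ A`: `A` is monic, `1 ≤ deg A ≤ n`, all roots have modulus at most `ρ`. `Close A B κ`: some
root of `A` and some root of `B` are at distance less than `κ`. `SolvableSet Z O`: the literal reading of the
problem, the sets of zeros and of ones in the closed unit disc are `Z` and `O`, any multiplicities.
`Patt n Z A`: `A` is monic, of degree at most `n`, with root set `Z`.
-/

set_option autoImplicit false

open Complex Polynomial

namespace Pool.Agent.Results.MP_2b3e36_an.CloseZerosAndOnes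

open Pool.Agent.CZ

/-- For every number of zeros and ones: if some zero and some one are close, then a solution exists
(up to the factors `exp η`, `exp (-η)`) exactly if the numbers are equal and the Nevanlinna-Pick problem with the
constant `16` is solvable: with prescribed multiplicities, and for sets. For two zeros this problem is solved
explicitly (two real zeros, a double zero, two conjugate zeros). -/
theorem result :
    (∀ (n : ℕ) (ρ η : ℝ), 0 < ρ → ρ < 1 → 0 < η → ∃ κ : ℝ, 0 < κ ∧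
      ∀ A B : ℝ[X], Hyp n ρ A → Hyp n ρ B → Close A B κ →
        (Solvable A B → A.natDegree = B.natDegree ∧ NP A B (16 * Real.exp η)) ∧
        (A.natDegree = B.natDegree → NP A B (16 * Real.exp (-η)) → Solvable A B)) ∧
    (∀ (m : ℕ) (ρ η : ℝ), 0 < ρ → ρ < 1 → 0 < η → ∃ (n : ℕ) (κ : ℝ), 0 < κ ∧
      ∀ Z O : Finset ℂ, Z.card + O.card ≤ m → (∀ z ∈ Z, ‖z‖ ≤ ρ) → (∀ z ∈ O, ‖z‖ ≤ ρ) →
        (∃ z ∈ Z, ∃ o ∈ O, ‖z - o‖ < κ) →
        (SolvableSet Z O → ∃ A B : ℝ[X], Patt n Z A ∧ Patt n O B ∧ A.natDegree = B.natDegree ∧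
          NP A B (16 * Real.exp η)) ∧
        ((∃ A B : ℝ[X], Patt n Z A ∧ Patt n O B ∧ A.natDegree = B.natDegree ∧
          NP A B (16 * Real.exp (-η))) → SolvableSet Z O)) ∧
    (∀ (B : ℝ[X]) (ρ c : ℝ), 0 < ρ → ρ < 1 → B.Monic → RootsIn B ρ → 0 < c →
      (∀ x y : ℝ, |x| ≤ ρ → |y| ≤ ρ → x < y →
        (NP ((X - C x) * (X - C y)) B c ↔ 0 < blr B x * blr B y ∧ |blr B x| < c ∧ |blr B y| < c ∧
          |Real.log (c / |blr B x|) - Real.log (c / |blr B y|)| * (1 - x * y) <
            (Real.log (c / |blr B x|) + Real.log (c / |blr B y|)) * (y - x))) ∧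
      (∀ x : ℝ, |x| ≤ ρ →
        (NP ((X - C x) ^ 2) B c ↔ blr B x ≠ 0 ∧ |blr B x| < c ∧
          |deriv (blr B) x| * (1 - x ^ 2) < 2 * |blr B x| * Real.log (c / |blr B x|))) ∧
      (∀ z : ℂ, ‖z‖ ≤ ρ → 0 < z.im →
        (NP (X ^ 2 - C (2 * z.re) * X + C (Complex.normSq z)) B c ↔
          bl B z ≠ 0 ∧ ‖bl B z‖ < c ∧ |arg (bl B z ^ 2)| * ‖1 - z ^ 2‖ <
            2 * z.im * Real.sqrt (4 * Real.log (c / ‖bl B z‖) ^ 2 + |arg (bl B z ^ 2)| ^ 2)))) :=
  ⟨fun n _ _ h0 h1 h2 => main n h0 h1 h2,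
    fun m _ _ h0 h1 h2 => set_main m h0 h1 h2,
    fun _ _ _ h0 h1 hm hr hc =>
      ⟨fun _ _ hx hy hxy => np_real h0 h1 hm hr hx hy hxy hc, fun _ hx => np_dbl h0 h1 hm hr hx hc,
        fun _ hz him => np_conj h0 h1 hm hr hz him hc⟩⟩

end Pool.Agent.Results.MP_2b3e36_an.CloseZerosAndOnes
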