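import Pool.Agent.Lib.MP_2b3e36_an.Ex.Z2
import Pool.Agent.Lib.MP_2b3e36_an.Ex.Z3
import Pool.Agent.Lib.MP_2b3e36_an.Nu.L3
import Pool.Agent.Lib.MP_2b3e36_an.Nu.L4

/-!
# MP_2b3e36_an: the exact constant of the plants `z / (z² + β)`
-/

set_option autoImplicit false

namespace Pool.Agent.Results.MP_2b3e36_an.ExactConstant

open Pool.Agent.Lib.MP_2b3e36_an Pool.Agent.Choc

/-- `ω₁(y)`, `ω₂(y)` are well defined for all `y > 0`; they are equal for some `y`; and if they are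
equal to `ω` then `0.449082 < ω < 0.449098`, `0.00642 < tan² (π (1 - 2 ω) / 4) < 0.006425`, and
`z / (z² + β)` is stabilized by a bistable controller if and only if `β > tan² (π (1 - 2 ω) / 4)`. -/
theorem result :
    (∀ y : ℝ, 0 < y → ∃! w : ℝ × ℝ, IsOmega y w.1 w.2) ∧
    (∃ y ω : ℝ, 0 < y ∧ IsOmega y ω ω) ∧
    (∀ y ω : ℝ, 0 < y → IsOmega y ω ω →
      (449082 / 1000000 < ω ∧ ω < 449098 / 1000000) ∧
      (642 / 100000 < Real.tan (Real.pi * (1 - 2 * ω) / 4) ^ 2 ∧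
        Real.tan (Real.pi * (1 - 2 * ω) / 4) ^ 2 < 6425 / 1000000) ∧
      ∀ β : ℝ, 0 < β →
        ((∃ c : RatFunc ℝ, Bistable c ∧ StabilizedBy (plant β) c) ↔
          Real.tan (Real.pi * (1 - 2 * ω) / 4) ^ 2 < β)) := by
  refine ⟨fun y hy => omega_existsUnique hy, omega_balance, fun y ω hy h => ?_⟩
  have hn := Nu.omega_balanced_num hy h (isOmega_exists (Nu.yT_pos Nu.TV_ge))
  exact ⟨hn, Nu.beta_num hn.1 hn.2, fun β hβ => plant_constant hy h hβ⟩

end Pool.Agent.Results.MP_2b3e36_an.ExactConstant
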