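import Pool.Agent.Lib.MP_2b3e36_an.Ex.Z4
import Pool.Agent.Lib.MP_2b3e36_an.Re.Y1
import Pool.Agent.Lib.MP_2b3e36_an.Re.S9

/-!
# MP_2b3e36_an: one zero and two ones

The complete answer in the case of one zero and two ones, all simple, in the closed unit disc: a pair of
conjugate ones (`StableSol`) and two real ones (`StableSol2`). In each case the position of the points is
compared with a one parameter family of domains: the harmonic measures `IsOmega y` of the slit modular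
discs `V y`, and the positions `Ends η` of the corners of the slit regions `Wd η`.
-/

set_option autoImplicit false

namespace Pool.Agent.Results.MP_2b3e36_an.OneZeroTwoOnes

open Pool.Agent.Choc

/-- The positions of the corners of `Wd η` exist and are unique. -/
theorem ends_existsUnique {η : ℝ} (hη : 0 < η) : ∃! w : ℝ × ℝ, Ends η w.1 w.2 := by
  obtain ⟨T, v₁, v₂, vc, hT⟩ := model2_exists hη
  refine ⟨(ea v₁ v₂, ec v₁ v₂), ends_of_model hT, fun w hw => ?_⟩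
  obtain ⟨h1, h2⟩ := ends_unique hw hT
  exact Prod.ext h1 h2

/-- One zero `a` and two ones in the closed unit disc, all simple: the criterion for the ones `b`,
`conj b` and the criterion for two real ones `b₁ < b₂`. -/
theorem result :
    (∀ y : ℝ, 0 < y → ∃! w : ℝ × ℝ, IsOmega y w.1 w.2) ∧
    (∀ η : ℝ, 0 < η → ∃! w : ℝ × ℝ, Ends η w.1 w.2) ∧
    (∀ (a : ℝ) (b : ℂ), |a| ≤ 1 → ‖b‖ ≤ 1 → 0 < b.im →
      (StableSol a b ↔ (|a| = 1 ∨ ‖b‖ = 1 ∨ ∃ y ω₁ ω₂ : ℝ, 0 < y ∧ IsOmega y ω₁ ω₂ ∧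
        ((hA (jou ((b - a) / (1 - a * b))) < ω₁ ∧ hB (jou ((b - a) / (1 - a * b))) < ω₂) ∨
          (hB (jou ((b - a) / (1 - a * b))) < ω₁ ∧ hA (jou ((b - a) / (1 - a * b))) < ω₂))))) ∧
    (∀ a b₁ b₂ : ℝ, |a| ≤ 1 → -1 ≤ b₁ → b₁ < b₂ → b₂ ≤ 1 → a ≠ b₁ → a ≠ b₂ →
      (StableSol2 a b₁ b₂ ↔
        ((a < b₁ ∧ (a = -1 ∨ b₂ = 1 ∨ Crit2 (mo a b₁) (mo a b₂))) ∨
          (b₂ < a ∧ (a = 1 ∨ b₁ = -1 ∨ Crit2 (mo b₂ a) (mo b₁ a)))))) :=
  ⟨fun _ hy => omega_existsUnique hy, fun _ hη => ends_existsUnique hη,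
    fun _ _ ha hb hb' => stable_iff ha hb hb',
    fun _ _ _ ha h0 h1 h2 n1 n2 =>
      stable2_iff (fun _ _ h0 h1 h2 => criterion2 h0 h1 h2) endsLim ha h0 h1 h2 n1 n2⟩

end Pool.Agent.Results.MP_2b3e36_an.OneZeroTwoOnes
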